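import Pool.Agent.NPG.StmtsD

/-! # NPY row BOU: the closed sets of bounded functionals -/

set_option autoImplicit false

open MeasureTheory Set Topology

namespace Pool.Agent.NPY.H59

open Pool.Agent.LSG Pool.Agent.NPY

theorem bou : BouStmt := by
  classical
  intro Z Y _ _ T c hc F D hD hcov
  refine ⟨fun j => {y | ∀ f : C(Z, ℝ), (∀ z ∈ F, f z = 0) → ∀ r : ℝ, 0 ≤ r →
    (∀ z ∈ D j, |f z| ≤ r) → |T f y| ≤ j * r}, ?_, ?_, ?_, ?_⟩
  · intro j
    simp only [Set.setOf_forall]
    refine isClosed_iInter fun f => isClosed_iInter fun _ => isClosed_iInter fun r =>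
      isClosed_iInter fun _ => isClosed_iInter fun _ => ?_
    exact isClosed_le (T f).continuous.abs continuous_const
  · intro j j' hjj y hy f hf r hr hb
    have h1 : |T f y| ≤ j * r := hy f hf r hr fun z hz => hb z (hD hjj hz)
    exact h1.trans (mul_le_mul_of_nonneg_right (by exact_mod_cast hjj) hr)
  · intro y
    have hcov2 : ∀ z, ∃ j, z ∈ F ∨ z ∈ D j := by
      intro z
      rcases hcov z with h | ⟨j, h⟩
      · exact ⟨0, Or.inl h⟩
      · exact ⟨j, Or.inr h⟩
    choose g hg using hcov2
    obtain ⟨N, hN⟩ := exists_nat_ge (∑ z ∈ (c y).support, |c y z|)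
    refine ⟨max ((c y).support.sup g) N, ?_⟩
    intro f hf r hr hb
    rw [hc f y, Finsupp.sum]
    have h1 : |∑ z ∈ (c y).support, c y z * f z| ≤ ∑ z ∈ (c y).support, |c y z| * r := by
      refine (Finset.abs_sum_le_sum_abs _ _).trans (Finset.sum_le_sum fun z hz => ?_)
      rw [abs_mul]
      refine mul_le_mul_of_nonneg_left ?_ (abs_nonneg _)
      rcases hg z with h | h
      · rw [hf z h, abs_zero]
        exact hr
      · exact hb z (hD ((Finset.le_sup (f := g) hz).trans (le_max_left _ _)) h)
    refine h1.trans ?_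
    rw [← Finset.sum_mul]
    refine mul_le_mul_of_nonneg_right (hN.trans ?_) hr
    exact_mod_cast le_max_right _ _
  · intro j y hy f hf r hr hb
    exact hy f hf r hr hb

end Pool.Agent.NPY.H59
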